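import Pool.Agent.helper25.EN.Spec

set_option autoImplicit false

namespace EN

open Finset Real

theorem AVG_card {m : ℕ} (C : Finset (Fin m)) (y : Om m) :
    (2 : ℝ) ^ #C * (#{x : Om m | ∀ u ∈ C, x u = y u} : ℝ) = 2 ^ m := by
  classical
  have h1 : ({x : Om m | ∀ u ∈ C, x u = y u} : Finset (Om m)) =
      Fintype.piFinset (fun u => if u ∈ C then ({y u} : Finset Bool) else univ) := by
    ext x
    simp only [mem_filter, mem_univ, true_and, Fintype.mem_piFinset]
    constructor
    · intro h u
      by_cases hu : u ∈ C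
      · simp [hu, h u hu]
      · simp [hu]
    · intro h u hu
      have := h u
      simpa [hu] using this
  have h2 : #{x : Om m | ∀ u ∈ C, x u = y u} = 2 ^ (m - #C) := by
    rw [h1, Fintype.card_piFinset]
    have h3 : ∀ u : Fin m, #(if u ∈ C then ({y u} : Finset Bool) else univ) = if u ∈ C then 1 else 2 := by
      intro u
      split_ifs <;> simp
    rw [prod_congr rfl fun u _ => h3 u, prod_ite, prod_const_one, prod_const, one_mul]
    congr 1
    have h4 : (univ.filter fun u : Fin m => u ∉ C) = Cᶜ := by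
      ext u
      simp
    rw [h4, card_compl, Fintype.card_fin]
  rw [h2]
  push_cast
  rw [← pow_add]
  congr 1
  have h5 : #C ≤ m := by
    have := card_le_univ C
    simpa using this
  omega

theorem AVG (acp : ACP_stmt) : AVG_stmt := by
  classical
  have _ := acp
  intro m Q _ S hS g hg
  have hrel : ∀ x y : Om m, (∀ u ∈ S x, y u = x u) ↔ (∀ u ∈ S y, x u = y u) := by
    intro x y
    constructor
    · intro h u hu
      rw [hS x y h] at hu
      exact (h u hu).symm
    · intro h u hu
      rw [hS y x h] at hu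
      exact (h u hu).symm
  have h1 : ∀ x : Om m, (2 ^ #(S x) * w Q (S x) x) * g x / 2 ^ m =
      ∑ y : Om m, if (∀ u ∈ S x, y u = x u) then (2 : ℝ) ^ #(S y) * Q y * g y / 2 ^ m else 0 := by
    intro x
    unfold w
    rw [← sum_filter, mul_sum, sum_mul, sum_div]
    refine sum_congr rfl fun y hy => ?_
    have hy2 : ∀ u ∈ S x, y u = x u := (mem_filter.1 hy).2
    rw [hS x y hy2, hg x y hy2]
  rw [sum_congr rfl fun x _ => h1 x, sum_comm]
  refine sum_congr rfl fun y _ => ?_
  have h2 : ∀ x : Om m, (if (∀ u ∈ S x, y u = x u) then (2 : ℝ) ^ #(S y) * Q y * g y / 2 ^ m else 0) =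
      if (∀ u ∈ S y, x u = y u) then (2 : ℝ) ^ #(S y) * Q y * g y / 2 ^ m else 0 := by
    intro x
    by_cases h : ∀ u ∈ S x, y u = x u
    · rw [if_pos h, if_pos ((hrel x y).1 h)]
    · rw [if_neg h, if_neg (fun h' => h ((hrel x y).2 h'))]
  rw [sum_congr rfl fun x _ => h2 x, ← sum_filter, sum_const, nsmul_eq_mul]
  have h3 := AVG_card (S y) y
  have h4 : (2 : ℝ) ^ m ≠ 0 := by positivity
  field_simp
  linear_combination (-(Q y * g y)) * h3

end EN
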